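import Pool.Agent.N883.FF.Hal

/-!
# Project SM: mean values with the two labels (part HAL, helper401)

An adaptation of `Pool/Agent/N883/FF/Hal.lean` (helper833) to the character
`d ↦ xab A B d * ez (t * nq d + s * mq d)` on primary elements, where `mq (1 + 3 z) = im z`.
-/

set_option autoImplicit false

open Finset

namespace Pool.Agent.N401.SM

open Pool.Agent.Y692.QS (Ei w nr nr_mul nr_one)
open Pool.Agent.Y715.T.Rec (cs)
open Pool.Agent.Y715.T.RecG (Pq)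
open Pool.Agent.Y699.E
open Pool.Agent.N883.FF (nq)
open Pool.Agent.N883.FF.HalA
open scoped ComplexConjugate

/-- the second label of an element that is `1` modulo three -/
def mq (α : Ei) : ZMod 3 := ((α.im / 3 : ℤ) : ZMod 3)

/-! ### the label -/

/-- the label `z` modulo three, a residue of the element modulo nine -/
lemma prm_im {a : Ei} (h : prm a) : ∃ k l : ℤ, a.re = 1 + 3 * k ∧ a.im = 3 * l := by
  obtain ⟨c, hc⟩ := h
  have h1 : a = 1 + 3 * c := by rw [← hc]; ring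
  have r3 : (3 : Ei).re = 3 := by decide
  have i3 : (3 : Ei).im = 0 := by decide
  have r1 : (1 : Ei).re = 1 := by decide
  have i1 : (1 : Ei).im = 0 := by decide
  refine ⟨c.re, c.im, ?_, ?_⟩
  · rw [h1]; simp [r3, i3, r1]
  · rw [h1]; simp [r3, i3, i1]

lemma mq_of {a : Ei} {l : ℤ} (h : a.im = 3 * l) : mq a = (l : ZMod 3) := by
  unfold mq
  have : a.im / 3 = l := by rw [h]; omega
  rw [this]

lemma mq_mul {a b : Ei} (ha : prm a) (hb : prm b) : mq (a * b) = mq a + mq b := by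
  obtain ⟨k, l, h1, h2⟩ := prm_im ha
  obtain ⟨k', l', h3, h4⟩ := prm_im hb
  have h5 : (a * b).im = 3 * (l + l' + 3 * (k * l' + k' * l - l * l')) := by
    simp [h1, h2, h3, h4]
    ring
  rw [mq_of h2, mq_of h4, mq_of h5]
  push_cast
  have h3 : (3 : ZMod 3) = 0 := by decide
  rw [h3]
  ring

lemma mq_one : mq 1 = 0 := by
  have : (1 : Ei).im = 3 * 0 := by decide
  rw [mq_of this]
  simp

lemma mq_congr {a b : Ei} (h : (9 : Ei) ∣ a - b) : mq a = mq b := by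
  obtain ⟨c, hc⟩ := h
  have h1 : a = b + 9 * c := by rw [← hc]; ring
  have r9 : (9 : Ei).re = 9 := by decide
  have i9 : (9 : Ei).im = 0 := by decide
  have e2 : a.im = b.im + 9 * c.im := by
    rw [h1]; simp [r9, i9]
  unfold mq
  have : a.im / 3 = b.im / 3 + 3 * c.im := by omega
  rw [this]
  push_cast
  have h3 : (3 : ZMod 3) = 0 := by decide
  rw [h3]
  ring

/-! ### the character -/

/-- the second label for all elements prime to three: a cube is `± (1 + 9 z)` -/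
def mc (a : Ei) : ZMod 3 := (((a ^ 3).im / 9 : ℤ) : ZMod 3) * (((a ^ 3).re : ℤ) : ZMod 3)

lemma cube_re (a : Ei) : (a ^ 3).re = a.re ^ 3 + a.im ^ 3 - 3 * a.re * a.im ^ 2 := by
  rw [pow_succ, pow_two]
  simp
  ring

lemma cube_im (a : Ei) : (a ^ 3).im = 3 * a.re * a.im * (a.re - a.im) := by
  rw [pow_succ, pow_two]
  simp
  ring

/-- cubes modulo nine -/
def Cb (a : Ei) (y : ℤ) : Prop :=
  ∃ e x : ℤ, (e = 1 ∨ e = -1) ∧ (a ^ 3).re = e * (1 + 9 * x) ∧ (a ^ 3).im = e * (9 * y)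

lemma mc_of {a : Ei} {y : ℤ} (h : Cb a y) : mc a = (y : ZMod 3) := by
  obtain ⟨e, x, he, h1, h2⟩ := h
  unfold mc
  have h3 : (a ^ 3).im / 9 = e * y := by rw [h2]; have : e * (9 * y) = 9 * (e * y) := by ring
                                         rw [this]; omega
  rw [h3, h1]
  have h9 : (9 : ZMod 3) = 0 := by decide
  push_cast
  rw [h9, zero_mul, add_zero, mul_one]
  rcases he with rfl | rfl <;> simp

lemma cb_mul {a b : Ei} {y z : ℤ} (ha : Cb a y) (hb : Cb b z) :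
    ∃ u : ℤ, Cb (a * b) (y + z + 9 * u) := by
  obtain ⟨e, x, he, h1, h2⟩ := ha
  obtain ⟨e', x', he', h3, h4⟩ := hb
  refine ⟨x * z + x' * y - y * z, e * e', x + x' + 9 * x * x' - 9 * y * z, ?_, ?_, ?_⟩
  · rcases he with rfl | rfl <;> rcases he' with rfl | rfl <;> simp
  · have : ((a * b) ^ 3).re = (a ^ 3).re * (b ^ 3).re - (a ^ 3).im * (b ^ 3).im := by
      rw [mul_pow]; simp; ring
    rw [this, h1, h2, h3, h4]
    ring
  · have : ((a * b) ^ 3).im = (a ^ 3).re * (b ^ 3).im + (a ^ 3).im * (b ^ 3).re -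
        (a ^ 3).im * (b ^ 3).im := by
      rw [mul_pow]; simp; ring
    rw [this, h1, h2, h3, h4]
    ring

lemma cb_ex {a : Ei} (h : ¬ (3 : ℤ) ∣ nr a) : ∃ y : ℤ, Cb a y := by
  obtain ⟨p, r, hp, hr⟩ : ∃ p r : ℤ, a.re = r + 3 * p ∧ (r = 0 ∨ r = 1 ∨ r = -1) := by
    have h1 : a.re % 3 = 0 ∨ a.re % 3 = 1 ∨ a.re % 3 = 2 := by omega
    rcases h1 with h1 | h1 | h1
    · exact ⟨a.re / 3, 0, by omega, by simp⟩
    · exact ⟨a.re / 3, 1, by omega, by simp⟩
    · exact ⟨a.re / 3 + 1, -1, by omega, by simp⟩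
  obtain ⟨q, t, hq, ht⟩ : ∃ q t : ℤ, a.im = t + 3 * q ∧ (t = 0 ∨ t = 1 ∨ t = -1) := by
    have h1 : a.im % 3 = 0 ∨ a.im % 3 = 1 ∨ a.im % 3 = 2 := by omega
    rcases h1 with h1 | h1 | h1
    · exact ⟨a.im / 3, 0, by omega, by simp⟩
    · exact ⟨a.im / 3, 1, by omega, by simp⟩
    · exact ⟨a.im / 3 + 1, -1, by omega, by simp⟩
  unfold nr at h
  rw [hp, hq] at h
  unfold Cb
  simp only [cube_re, cube_im, hp, hq]
  rcases hr with rfl | rfl | rfl <;> rcases ht with rfl | rfl | rfl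
  · exact absurd ⟨3 * p ^ 2 - 3 * p * q + 3 * q ^ 2, by ring⟩ h
  · -- (0,1)
    exact ⟨p * (1 + 3 * q) * (3 * p - (1 + 3 * q)), 1,
      3 * p ^ 3 + q + 3 * q ^ 2 + 3 * q ^ 3 - p * (1 + 3 * q) ^ 2, Or.inl rfl, by ring, by ring⟩
  · -- (0,-1)
    exact ⟨-(p * (-1 + 3 * q) * (3 * p - (-1 + 3 * q))), -1,
      -(3 * p ^ 3 + q - 3 * q ^ 2 + 3 * q ^ 3 - p * (-1 + 3 * q) ^ 2), Or.inr rfl, by ring, by ring⟩
  · -- (1,0)
    exact ⟨(1 + 3 * p) * q * ((1 + 3 * p) - 3 * q), 1,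
      p + 3 * p ^ 2 + 3 * p ^ 3 + 3 * q ^ 3 - 3 * (1 + 3 * p) * q ^ 2, Or.inl rfl, by ring, by ring⟩
  · -- (1,1)
    exact ⟨-((1 + 3 * p) * (1 + 3 * q) * (p - q)), -1,
      -(p + 3 * p ^ 2 + 3 * p ^ 3 + q + 3 * q ^ 2 + 3 * q ^ 3 -
        (p + 2 * q + 3 * q ^ 2 + 6 * p * q + 9 * p * q ^ 2)), Or.inr rfl, by ring, by ring⟩
  · -- (1,-1)
    exact absurd ⟨1 + 3 * p - 3 * q + 3 * p ^ 2 - 3 * p * q + 3 * q ^ 2, by ring⟩ h
  · -- (-1,0)
    exact ⟨-((-1 + 3 * p) * q * ((-1 + 3 * p) - 3 * q)), -1,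
      -(p - 3 * p ^ 2 + 3 * p ^ 3 + 3 * q ^ 3 - 3 * (-1 + 3 * p) * q ^ 2), Or.inr rfl, by ring, by ring⟩
  · -- (-1,1)
    exact absurd ⟨1 - 3 * p + 3 * q + 3 * p ^ 2 - 3 * p * q + 3 * q ^ 2, by ring⟩ h
  · -- (-1,-1)
    exact ⟨(-1 + 3 * p) * (-1 + 3 * q) * (p - q), 1,
      p - 3 * p ^ 2 + 3 * p ^ 3 + q - 3 * q ^ 2 + 3 * q ^ 3 -
        (p + 2 * q - 3 * q ^ 2 - 6 * p * q + 9 * p * q ^ 2), Or.inl rfl, by ring, by ring⟩

lemma mc_mul {a b : Ei} (ha : ¬ (3 : ℤ) ∣ nr a) (hb : ¬ (3 : ℤ) ∣ nr b) :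
    mc (a * b) = mc a + mc b := by
  obtain ⟨y, hy⟩ := cb_ex ha
  obtain ⟨z, hz⟩ := cb_ex hb
  obtain ⟨u, hu⟩ := cb_mul hy hz
  rw [mc_of hy, mc_of hz, mc_of hu]
  push_cast
  have h9 : (9 : ZMod 3) = 0 := by decide
  rw [h9, zero_mul, add_zero]

lemma mc_prm {a : Ei} (h : prm a) : mc a = mq a := by
  obtain ⟨k, l, h1, h2⟩ := prm_im h
  have h3 : Cb a (l * (1 + 3 * k) * (1 + 3 * k - 3 * l)) := by
    refine ⟨1, k + 3 * k ^ 2 + 3 * k ^ 3 + 3 * l ^ 3 - 3 * l ^ 2 - 9 * k * l ^ 2, Or.inl rfl, ?_, ?_⟩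
    · rw [cube_re, h1, h2]; ring
    · rw [cube_im, h1, h2]; ring
  rw [mc_of h3, mq_of h2]
  push_cast
  have h3 : (3 : ZMod 3) = 0 := by decide
  rw [h3]
  ring

open Classical in
/-- the character -/
noncomputable def ps (A B : Ei) (t s : ZMod 3) (d : Ei) : ℂ :=
  if (3 : ℤ) ∣ nr d then 0 else xab A B d * ez (t * nq d + s * mc d)

lemma ps_ch {A B : Ei} (hA : PS A) (hB : PS B) (t s : ZMod 3) : CH (ps A B t s) := by
  refine ⟨?_, ?_, ?_⟩
  · unfold ps
    rw [if_neg (nr_of_prm prm_one), (xab_ch hA hB).one, nq_one, mul_zero, zero_add,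
      mc_prm prm_one, mq_one, mul_zero, ez_zero, mul_one]
  · intro a b
    unfold ps
    by_cases ha : (3 : ℤ) ∣ nr a
    · rw [if_pos ha, if_pos (by rw [nr_mul]; exact ha.mul_right _), zero_mul]
    by_cases hb : (3 : ℤ) ∣ nr b
    · rw [if_pos hb, if_pos (by rw [nr_mul]; exact hb.mul_left _), mul_zero]
    have hab : ¬ (3 : ℤ) ∣ nr (a * b) := by
      rw [nr_mul]
      intro h
      rcases Int.prime_three.dvd_or_dvd h with h1 | h1
      · exact ha h1
      · exact hb h1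
    have e : t * nq (a * b) + s * mc (a * b) = (t * nq a + s * mc a) + (t * nq b + s * mc b) := by
      rw [nq_mul ha hb, mc_mul ha hb]
      ring
    rw [if_neg ha, if_neg hb, if_neg hab, (xab_ch hA hB).mul, e, ez_add]
    ring
  · intro a
    unfold ps
    split_ifs with h
    · left; rfl
    · rcases xab_cases A B a with h1 | ⟨c, h1⟩
      · left; rw [h1, zero_mul]
      · right
        rw [h1, ← ez_add]
        exact ez_val _

lemma ps_prm {A B : Ei} {t s : ZMod 3} {d : Ei} (hd : prm d) :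
    ps A B t s d = xab A B d * ez (t * nq d + s * mq d) := by
  unfold ps
  rw [if_neg (nr_of_prm hd), mc_prm hd]

/-! ### the character sum -/

open Classical in
/-- the character on primary elements -/
noncomputable def pf (A B : Ei) (t s : ZMod 3) (d : Ei) : ℂ := if prm d then ps A B t s d else 0

lemma pf_norm {A B : Ei} (hA : PS A) (hB : PS B) (t s : ZMod 3) (a : Ei) : ‖pf A B t s a‖ ≤ 1 := by
  unfold pf
  split_ifs
  · exact (ps_ch hA hB t s).norm_le a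
  · simp

/-- the element `g = 1` modulo `A B`, `g = g₀` modulo `9` -/
lemma exists_g {A B : Ei} (hA : PS A) (hB : PS B) (g₀ : Ei) :
    ∃ g : Ei, A * B ∣ g - 1 ∧ (9 : Ei) ∣ g - g₀ := by
  have hAB : prm (A * B) := prm_mul hA.prm hB.prm
  obtain ⟨x, y, hxy⟩ := prm_cop_nine hAB
  refine ⟨1 + (g₀ - 1) * (x * (A * B)), ⟨(g₀ - 1) * x, by ring⟩, ⟨-((g₀ - 1) * y), ?_⟩⟩
  linear_combination (g₀ - 1) * hxy

lemma tw : ∀ t : ZMod 3, ¬ t = 0 → t * 2 ≠ 0 := by decide

/-- an element on which the character modulo nine is not trivial -/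
lemma exists_g0 {t s : ZMod 3} (h : t ≠ 0 ∨ s ≠ 0) : ∃ g₀ : Ei, prm g₀ ∧
    t * nq g₀ + s * mq g₀ ≠ 0 := by
  by_cases ht : t = 0
  · refine ⟨⟨1, 3⟩, ⟨⟨0, 1⟩, by decide⟩, ?_⟩
    have h1 : mq (⟨1, 3⟩ : Ei) = 1 := by decide
    rw [ht, zero_mul, zero_add, h1, mul_one]
    exact h.resolve_left fun h' => h' ht
  · refine ⟨⟨4, 0⟩, ⟨⟨1, 0⟩, by decide⟩, ?_⟩
    have h1 : mq (⟨4, 0⟩ : Ei) = 0 := by decide
    have h2 : nq (⟨4, 0⟩ : Ei) = 2 := by decide
    rw [h1, h2, mul_zero, add_zero]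
    exact tw t ht

theorem pf_sum {A B : Ei} (hA : PS A) (hB : PS B) {t s : ZMod 3} (hts : t ≠ 0 ∨ s ≠ 0) (V : ℕ) :
    ‖∑ a ∈ ZB V, pf A B t s a‖ ≤ 243 * (nrm A * nrm B) * (3 * Real.sqrt V + 1) := by
  classical
  have h9 : (9 : Ei) ≠ 0 := by decide
  have hq : 9 * (A * B) ≠ 0 := mul_ne_zero h9 (mul_ne_zero hA.ne hB.ne)
  obtain ⟨g₀, hg0, hgn⟩ := exists_g0 hts
  obtain ⟨g, hg1, hg9⟩ := exists_g hA hB g₀
  have hg3 : prm g := by
    have h1 : (3 : Ei) ∣ g - g₀ := (Dvd.intro _ nine_eq.symm).trans hg9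
    have h2 : g - 1 = (g - g₀) + (g₀ - 1) := by ring
    unfold prm
    rw [h2]
    exact dvd_add h1 hg0
  have hxg : xab A B g = 1 := by
    unfold xab
    rw [jac_per hA.ne (a := g) (b := 1) ((dvd_mul_right _ _).trans hg1),
      jac_per hB.ne (a := g) (b := 1) ((dvd_mul_left _ _).trans hg1), jac_one_right hA.ne,
      jac_one_right hB.ne, map_one, one_mul]
  have hz : ez (t * nq g + s * mq g) ≠ 1 := by
    apply ez_ne
    rw [nq_congr hg9, mq_congr hg9]
    exact hgn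
  have hcop : IsCoprime g (9 * (A * B)) := by
    refine IsCoprime.mul_right (prm_cop_nine hg3) ?_
    obtain ⟨k, hk⟩ := hg1
    exact ⟨1, -k, by linear_combination hk⟩
  have h3 := csum hq (f := pf A B t s) ?_ (pf_norm hA hB t s) hcop hz ?_ V
  · refine h3.trans (le_of_eq ?_)
    rw [nrm_mul, nrm_mul, nrm_nine]
    push_cast
    ring
  · intro a b hab
    have e9 : (9 : Ei) ∣ a - b := (dvd_mul_right _ _).trans hab
    have e1 : (3 : Ei) ∣ a - b := (Dvd.intro _ nine_eq.symm).trans e9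
    have e2 : A ∣ a - b := ((dvd_mul_right _ _).trans (dvd_mul_left _ _)).trans hab
    have e3 : B ∣ a - b := ((dvd_mul_left _ _).trans (dvd_mul_left _ _)).trans hab
    have e4 : prm a ↔ prm b := by
      unfold prm
      constructor
      · intro h
        have := dvd_sub h e1
        have e : a - 1 - (a - b) = b - 1 := by ring
        rwa [e] at this
      · intro h
        have := dvd_add h e1
        have e : b - 1 + (a - b) = a - 1 := by ring
        rwa [e] at this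
    unfold pf
    by_cases h : prm a
    · rw [if_pos h, if_pos (e4.1 h), ps_prm h, ps_prm (e4.1 h), nq_congr e9, mq_congr e9]
      unfold xab
      rw [jac_per hA.ne e2, jac_per hB.ne e3]
    · rw [if_neg h, if_neg (fun hh => h (e4.2 hh))]
  · intro a
    unfold pf
    have e4 : prm (g * a) ↔ prm a :=
      ⟨fun h => prm_cancel hg3 h, fun h => prm_mul hg3 h⟩
    by_cases h : prm a
    · rw [if_pos h, if_pos (e4.2 h), (ps_ch hA hB t s).mul, ps_prm hg3, hxg, one_mul]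
    · rw [if_neg h, if_neg (fun hh => h (e4.1 hh)), mul_zero]

/-- character sums -/
lemma ps_le {A B : Ei} {t s : ZMod 3} (hA : PS A) (hB : PS B) (h1 : A ≠ B ∨ t ≠ 0 ∨ s ≠ 0) {v : ℕ}
    (hv : 1 ≤ v) : ‖∑ d ∈ PB v, ps A B t s d‖ ≤ 972 * (nrm A * nrm B : ℕ) * Real.sqrt v := by
  classical
  have h2 : (1 : ℝ) ≤ Real.sqrt v := Real.one_le_sqrt.2 (by exact_mod_cast hv)
  have h3 : (0 : ℝ) ≤ (nrm A : ℝ) * nrm B := by positivity
  by_cases hts : t ≠ 0 ∨ s ≠ 0
  · have h := pf_sum hA hB hts v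
    have e : ∑ a ∈ ZB v, pf A B t s a = ∑ d ∈ PB v, ps A B t s d := by
      unfold PB
      rw [sum_filter]
      rfl
    rw [e] at h
    refine h.trans ?_
    push_cast
    nlinarith
  · have hAB : A ≠ B := h1.resolve_right hts
    push Not at hts
    obtain ⟨ht, hs⟩ := hts
    have e : ∑ d ∈ PB v, ps A B t s d = ∑ d ∈ PB v, xab A B d := by
      refine sum_congr rfl fun d hd => ?_
      rw [ps_prm (mem_PB.1 hd).2, ht, hs, zero_mul, zero_mul, add_zero, ez_zero, mul_one]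
    rw [e]
    refine (chs_le hA hB hAB hv).trans ?_
    push_cast
    nlinarith [mul_nonneg h3 (by linarith : (0 : ℝ) ≤ Real.sqrt v)]

/-- the statement, with the label of this file -/
def S_HAL3 : Prop := ∃ C : ℝ, 1 ≤ C ∧ ∀ (A B : Ei) (t s : ZMod 3), PS A → PS B →
  (A ≠ B ∨ t ≠ 0 ∨ s ≠ 0) →
  ∀ T : ℕ, ∑ n ∈ SB T, mf (fun π => (1 + 2 * (xab A B π * ez (t * nq π + s * mq π)).re) / 3) n ≤
    C * (lg (nrm A * nrm B)) ^ (1 / 3 : ℝ) * (T * (lg T) ^ (-(1 / 3) : ℝ))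

/-- SM-HAL -/
theorem hal : S_HAL3 := by
  classical
  refine ⟨5544, by norm_num, ?_⟩
  intro A B t s hA hB h1 T
  have hN1 : 1 ≤ nrm A * nrm B := Nat.mul_pos (nrm_pos' hA.ne) (nrm_pos' hB.ne)
  rcases Nat.eq_zero_or_pos T with h0 | hT
  · rw [SB_empty h0, sum_empty]
    have h2 := lg_pos T
    have h3 := lg_pos (nrm A * nrm B)
    positivity
  have hch := ps_ch hA hB t s
  have hl := one_le_lg (nrm A * nrm B)
  have hlT := lg_pos T
  have hmf : ∀ n ∈ SB T, mf (fun π => (1 + 2 * (xab A B π * ez (t * nq π + s * mq π)).re) / 3) n =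
      mf (fun π => (1 + 2 * (ps A B t s π).re) / 3) n := by
    intro n hn
    unfold mf
    refine prod_congr rfl fun π hπ => ?_
    show (1 + 2 * (xab A B π * ez (t * nq π + s * mq π)).re) / 3 = (1 + 2 * (ps A B t s π).re) / 3
    rw [ps_prm (pq_prm ((mem_PD (mem_SB.1 hn).2.ne).1 hπ).1)]
  rw [sum_congr rfl hmf]
  have hAA : ∑ n ∈ PB (T ^ 3), mf (fun π => 3 * ((1 + 2 * (ps A B t s π).re) / 3)) n / nrm n ≤
      (18399744 * lg (nrm A * nrm B)) * lg T ^ 2 := by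
    have e1 : (fun π : Ei => 3 * ((1 + 2 * (ps A B t s π).re) / 3)) =
        fun π => 1 + 2 * (ps A B t s π).re := by
      funext π; ring
    rw [e1]
    have hlog : ∀ Y : ℕ, ‖∑ d ∈ PB Y, ps A B t s d / nrm d‖ ≤ 1992 * lg (nrm A * nrm B) := by
      intro Y
      have := ch_log hch hN1 (c := 972) (by norm_num) (fun v hv => ps_le hA hB h1 hv) Y
      refine this.trans (le_of_eq ?_)
      norm_num
    refine (conv_bound hch hlog (T ^ 3)).trans ?_
    have e5 := lg_cube T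
    have e6 := lg_pos (T ^ 3)
    have e7 : (32 * lg (T ^ 3)) ^ 2 ≤ (96 * lg T) ^ 2 := by
      apply pow_le_pow_left₀ (by positivity)
      linarith
    calc (32 * lg (T ^ 3)) ^ 2 * (1992 * lg (nrm A * nrm B)) ≤
          (96 * lg T) ^ 2 * (1992 * lg (nrm A * nrm B)) := by
          apply mul_le_mul_of_nonneg_right e7 (by positivity)
      _ = 18358272 * (lg (nrm A * nrm B) * lg T ^ 2) := by ring
      _ ≤ 18399744 * (lg (nrm A * nrm B) * lg T ^ 2) := by
          have : 0 ≤ lg (nrm A * nrm B) * lg T ^ 2 := by positivity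
          linarith
      _ = _ := by ring
  have hv := fun π => hch.val π
  have h2 := hall_aux (g := fun π => (1 + 2 * (ps A B t s π).re) / 3)
    (fun π => by have := re_nonneg (hv π); linarith)
    (fun π => by have := re_le (hv π); linarith) hT (by linarith) hAA
  refine h2.trans (le_of_eq ?_)
  have e : (18399744 * lg (nrm A * nrm B)) ^ (1 / 3 : ℝ) =
      264 * (lg (nrm A * nrm B)) ^ (1 / 3 : ℝ) := by
    rw [Real.mul_rpow (by norm_num) (by linarith)]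
    congr 1
    rw [show (18399744 : ℝ) = 264 ^ (3 : ℝ) by norm_num, ← Real.rpow_mul (by norm_num)]
    norm_num
  rw [e]
  ring

end Pool.Agent.N401.SM
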