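import Pool.Agent.N848.SM.Stm
import Pool.Agent.N401.SM.HalCore

/-!
# Project SM: part HAL (helper401)
-/

set_option autoImplicit false

namespace Pool.Agent.N401.SM

theorem t_HAL3 : Pool.Agent.N848.SM.S_HAL3 := hal

end Pool.Agent.N401.SM
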